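import Pool.Agent.H631.PC.Card
import Pool.Agent.H631.PC.Variants

/-!
# Variants of cofin for Borel sigma-ideals: the three strict inequalities are consistent

There is a ccc notion of forcing which forces the combinatorial sentence `PhiFor K C T`
(`PhiHolds P K C T` is its literal translation into the forcing language), where `K` has size
`ℵ₁`. This sentence implies that there are Borel `σ`-ideals on the Cantor space with
`cofin* < cofin⁻` and with `cofin⁻ < cofin`, and ZFC proves that there is one with
`cofin < cofin⁺`.

The ideals are those of the earlier conditional result (under `𝔟 < 𝔤`), and the upper bounds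
`cofin* ≤ 𝔟` and `cofin⁻ ≤ 𝔟` are taken from there. In the extension `𝔟 = ℵ₁`, and the lower
bounds are provided by functions `g` which dominate the members `x k` of a given long sequence
of functions only on the set of all `n` with `d n ≠ e`, where `d` is a Cohen real which depends on
`k`, and the number `e` depends on `k` and `d` in an arbitrary way.
-/

set_option autoImplicit false

namespace Pool.Agent.Results.MP_66ab92_lc.AllConsistent

open Set Cardinal Ordinal
open Pool.Agent.R165.Cof Pool.Agent.H631.PC

theorem uncountable_Y : Uncountable (ℕ → ℕ → ℕ) := by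
  have := uncountable_baire
  exact Function.Injective.uncountable (f := fun (z : ℕ → ℕ) (_ : ℕ) => z)
    fun a b h => congrFun h 0

theorem uncountable_cantor : Uncountable (ℕ → Bool) := by
  rw [uncountable_iff_forall_not_surjective]
  intro f hf
  obtain ⟨n, hn⟩ := hf fun k => !(f k k)
  have := congrFun hn n
  simp at this

/-- (A) There are infinite sets `T n` (`n : ℕ`), a linear order `K` all of whose initial segments
are countable, a set `C`, and a ccc notion of forcing `P` all of whose conditions force the
sentence `PhiFor K C T`. (B) Whenever all initial segments of the linear order `K` are countable,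
all `T n` are infinite and `PhiFor K C T` holds, there are Borel `σ`-ideals on the Cantor space
(containing all singletons) with `cofin* < cofin⁻` and with `cofin⁻ < cofin`. (C) There is a Borel
`σ`-ideal on the Cantor space with `cofin < cofin⁺`. -/
theorem result :
    (∃ (T : ℕ → Type) (K C P : Type) (_ : LinearOrder K) (_ : Preorder P),
      (∀ n, Infinite (T n)) ∧ (∀ k : K, (Set.Iio k).Countable) ∧ Nonempty P ∧
      (∀ A : Set P, (∀ p ∈ A, ∀ q ∈ A, p ≠ q → ¬ ∃ r, r ≤ p ∧ r ≤ q) → A.Countable) ∧
      ∀ p : P, p ∈ PhiHolds P K C T) ∧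
    (∀ (K C : Type) (T : ℕ → Type) (_ : LinearOrder K), (∀ k : K, (Set.Iio k).Countable) →
      (∀ n, Infinite (T n)) → PhiFor K C T →
      (∃ I : Set (Set (ℕ → Bool)), IsBorelSigmaIdeal I ∧ (∀ x, {x} ∈ I) ∧
        cofinStar I < cofinMinus I) ∧
      (∃ I : Set (Set (ℕ → Bool)), IsBorelSigmaIdeal I ∧ (∀ x, {x} ∈ I) ∧
        cofinMinus I < cofin I)) ∧
    (∃ I : Set (Set (ℕ → Bool)), IsBorelSigmaIdeal I ∧ (∀ x, {x} ∈ I) ∧
      cofin I < cofinPlus I) := by
  have hY := uncountable_Y
  have hC := uncountable_cantor
  refine ⟨?_, fun K C T _ hK hT hPhi => ?_, ⟨J4, J4_borel, fun x => countable_singleton x, ?_⟩⟩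
  · obtain ⟨T, h0, hs⟩ : ∃ T : ℕ → Type, T 0 = ℕ ∧ ∀ n, T (n + 1) = Set (T n) :=
      ⟨fun n => Nat.rec ℕ (fun _ X => Set X) n, rfl, fun n => rfl⟩
    have hlt : ∀ n, #(T n) < #(T (n + 1)) := by
      intro n
      rw [hs, Cardinal.mk_set]
      exact Cardinal.cantor _
    have hi0 : Infinite (T 0) := by
      rw [h0]
      infer_instance
    have hi : ∀ n, Infinite (T n) := by
      intro n
      rw [← Cardinal.aleph0_le_mk_iff]
      induction n with
      | zero => exact Cardinal.aleph0_le_mk _
      | succ n ih => exact ih.trans (hlt n).le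
    obtain ⟨K, C, P, iK, iP, hK, hP, hccc, h⟩ := exists_forcing_seq T hlt
    exact ⟨T, K, C, P, iK, iP, hi, hK, hP, hccc, h⟩
  · obtain ⟨h1, h2⟩ := variants hK hT hPhi
    constructor
    · let e : (ℕ → ℕ → ℕ) ≃ᵐ (ℕ → Bool) :=
        PolishSpace.measurableEquivOfNotCountable not_countable not_countable
      refine ⟨pull e.toEquiv J1, pull_borel e J1_borel, pull_singleton _ J1_singleton, ?_⟩
      rw [cofinStar_pull, cofinMinus_pull]
      exact h1
    · let e : (ℕ × (ℕ → ℕ → ℕ)) ≃ᵐ (ℕ → Bool) :=
        PolishSpace.measurableEquivOfNotCountable not_countable not_countable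
      refine ⟨pull e.toEquiv J2, pull_borel e J2_borel, pull_singleton _ J2_singleton, ?_⟩
      rw [cofinMinus_pull, cofin_pull]
      exact h2
  · rw [J4_plus]
    exact J4_cofin.trans_lt (WithTop.coe_lt_top _)

end Pool.Agent.Results.MP_66ab92_lc.AllConsistent
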